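import Pool.Agent.Q264.HM.Stm

/-!
# Job HM-WPH: the word problem of a virtually free group given by a coset table is decidable
-/

set_option autoImplicit false

namespace Pool.Agent.Q194.HM.WPH

open Pool.Agent.Q264.HM

variable {H : Type} [Group H] {n N k : ℕ}

/-- The value of a letter. -/
def vl (x : Fin k → H) (y : Fin k × Bool) : H := if y.2 then x y.1 else (x y.1)⁻¹

/-- One step of the automaton. -/
def st (T : Cosets H n N) (x : Fin k → H) (q : Fin N × List (Fin n × Bool)) (y : Fin k × Bool) :
    Fin N × List (Fin n × Bool) :=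
  (T.κ (T.σ q.1 * vl x y), q.2 ++ (T.f (T.σ q.1 * vl x y)).toWord)

/-- The run of the automaton on a word. -/
def run (T : Cosets H n N) (x : Fin k → H) (w : List (Fin k × Bool)) :
    Fin N × List (Fin n × Bool) :=
  w.foldl (st T x) (T.κ 1, [])

/-- One step of the reduction. -/
def rd (a : Fin n × Bool) (l : List (Fin n × Bool)) : List (Fin n × Bool) :=
  List.casesOn l [a] fun b t => bif decide (a.1 = b.1 ∧ a.2 = !b.2) then t else a :: b :: t

lemma reduce_eq (l : List (Fin n × Bool)) : FreeGroup.reduce l = l.foldr rd [] := by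
  induction l with
  | nil => rfl
  | cons a l ih =>
    rw [FreeGroup.reduce.cons, ih, List.foldr_cons]
    unfold rd
    cases l.foldr (fun a l => List.casesOn l [a]
      fun b t => bif decide (a.1 = b.1 ∧ a.2 = !b.2) then t else a :: b :: t) [] with
    | nil => rfl
    | cons b t =>
      simp only [Bool.cond_decide]

lemma val_concat (x : Fin k → H) (w : List (Fin k × Bool)) (y : Fin k × Bool) :
    val x (w ++ [y]) = val x w * vl x y := by
  unfold val vl
  simp

lemma run_eq (T : Cosets H n N) (x : Fin k → H) (w : List (Fin k × Bool)) :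
    T.κ (T.σ (T.κ 1) * val x w) = (run T x w).1 ∧
      T.f (T.σ (T.κ 1) * val x w) = FreeGroup.mk (run T x w).2 := by
  induction w using List.reverseRecOn with
  | nil =>
    constructor
    · simp [val, run, T.κσ]
    · simp [val, run, T.fσ]
      rfl
  | append_singleton w y ih =>
    have h1 : T.σ (T.κ 1) * val x (w ++ [y]) =
        T.ι (FreeGroup.mk (run T x w).2) * (T.σ (run T x w).1 * vl x y) := by
      rw [val_concat, ← mul_assoc, T.eq (T.σ (T.κ 1) * val x w), ih.1, ih.2]
      group
    have h2 : run T x (w ++ [y]) = st T x (run T x w) y := by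
      unfold run
      rw [List.foldl_append]
      rfl
    rw [h1, h2, T.κ_mul, T.f_mul]
    refine ⟨rfl, ?_⟩
    unfold st
    simp only
    rw [← FreeGroup.mul_mk, FreeGroup.mk_toWord]

lemma val_iff (T : Cosets H n N) (x : Fin k → H) (w : List (Fin k × Bool)) :
    val x w = 1 ↔ (run T x w).1 = T.κ 1 ∧ (run T x w).2.foldr rd [] = [] := by
  have h := run_eq T x w
  rw [← reduce_eq, ← FreeGroup.toWord_mk, ← h.2, ← h.1, FreeGroup.toWord_eq_nil_iff]
  constructor
  · intro h1
    rw [h1, mul_one, T.κσ, T.fσ]
    exact ⟨rfl, rfl⟩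
  · rintro ⟨h1, h2⟩
    have h3 := T.eq (T.σ (T.κ 1) * val x w)
    rw [h1, h2, map_one, one_mul] at h3
    simpa using h3

lemma primrec_run (T : Cosets H n N) (x : Fin k → H) : Primrec (run T x) := by
  have hκ : Primrec fun p : Fin N × (Fin k × Bool) => T.κ (T.σ p.1 * vl x p.2) :=
    Primrec.dom_finite _
  have hA : Primrec fun p : Fin N × (Fin k × Bool) => (T.f (T.σ p.1 * vl x p.2)).toWord :=
    Primrec.dom_finite _
  have h1 : Primrec fun q : (Fin N × List (Fin n × Bool)) × (Fin k × Bool) =>
      (q.1.1, q.2) :=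
    Primrec.pair (Primrec.fst.comp Primrec.fst) Primrec.snd
  have hst : Primrec fun q : (Fin N × List (Fin n × Bool)) × (Fin k × Bool) => st T x q.1 q.2 :=
    Primrec.pair (hκ.comp h1)
      (Primrec.list_append.comp (Primrec.snd.comp Primrec.fst) (hA.comp h1))
  exact Primrec.list_foldl (f := fun w : List (Fin k × Bool) => w)
    (g := fun _ => (T.κ 1, ([] : List (Fin n × Bool))))
    (h := fun _ q => st T x q.1 q.2) Primrec.id (Primrec.const _) (hst.comp Primrec.snd).to₂

lemma primrec_rd : Primrec fun p : (Fin n × Bool) × List (Fin n × Bool) => rd p.1 p.2 := by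
  have hd : Primrec fun q : (Fin n × Bool) × (Fin n × Bool) =>
      decide (q.1.1 = q.2.1 ∧ q.1.2 = !q.2.2) := Primrec.dom_finite _
  have h : Primrec₂ fun (p : (Fin n × Bool) × List (Fin n × Bool))
      (q : (Fin n × Bool) × List (Fin n × Bool)) =>
      bif decide (p.1.1 = q.1.1 ∧ p.1.2 = !q.1.2) then q.2 else p.1 :: q.1 :: q.2 := by
    unfold Primrec₂
    apply Primrec.cond
    · exact hd.comp (Primrec.pair (Primrec.fst.comp Primrec.fst) (Primrec.fst.comp Primrec.snd))
    · exact Primrec.snd.comp Primrec.snd
    · exact Primrec.list_cons.comp (Primrec.fst.comp Primrec.fst)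
        (Primrec.list_cons.comp (Primrec.fst.comp Primrec.snd) (Primrec.snd.comp Primrec.snd))
  exact Primrec.list_casesOn (f := fun p : (Fin n × Bool) × List (Fin n × Bool) => p.2)
    (g := fun p => [p.1]) Primrec.snd
    (Primrec.list_cons.comp Primrec.fst (Primrec.const [])) h

lemma primrec_foldr : Primrec fun l : List (Fin n × Bool) => l.foldr rd [] :=
  Primrec.list_foldr (f := fun l : List (Fin n × Bool) => l)
    (g := fun _ => ([] : List (Fin n × Bool)))
    (h := fun _ p => rd p.1 p.2) Primrec.id (Primrec.const _) (primrec_rd.comp Primrec.snd).to₂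

/-- **Job WPH.** -/
theorem t_WPH : S_WPH := by
  intro H _ n N k T x
  unfold DecidableWP
  rw [ComputablePred.computable_iff]
  have he : Primrec fun l : List (Fin n × Bool) =>
      (List.casesOn l true fun _ _ => false : Bool) :=
    Primrec.list_casesOn (f := fun l : List (Fin n × Bool) => l) (g := fun _ => true)
      (h := fun _ _ => false) Primrec.id (Primrec.const _) (Primrec.const _).to₂
  have hc : Primrec fun c : Fin N => decide (c = T.κ 1) := Primrec.dom_finite _
  have hr := primrec_run T x
  refine ⟨fun w => decide ((run T x w).1 = T.κ 1) &&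
    (List.casesOn ((run T x w).2.foldr rd []) true fun _ _ => false : Bool), ?_, ?_⟩
  · refine (Primrec.and.comp (hc.comp (Primrec.fst.comp hr)) ?_).to_comp
    exact he.comp (primrec_foldr.comp (Primrec.snd.comp hr))
  · funext w
    apply propext
    rw [val_iff T x w, Bool.and_eq_true, decide_eq_true_iff]
    apply and_congr Iff.rfl
    cases (run T x w).2.foldr rd [] <;> simp

end Pool.Agent.Q194.HM.WPH
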